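import Pool.Agent.H.MP_e16c79_al.N4.Ops

/-!
# MP_e16c79_al, index four: a checker for identities of four-linear functions

`A` is a commutative ring (not associative) satisfying the multilinear identities (A), (B);
`f` is a function of four arguments, skew in the first two and in the last two, with the two
cyclic relations.  Identities of `f` on monomials are checked by computation.
-/

set_option autoImplicit false

namespace Pool.Agent.H.MP_e16c79_al.F4

open Pool.Agent.H.MP_e16c79_al.N4

/-- the four-linear functions under consideration -/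
structure Tok (A M : Type*) [NonUnitalNonAssocCommRing A] [AddCommGroup M] where
  f : A → A → A → A → M
  add1 : ∀ p q z r y, f (p + q) z r y = f p z r y + f q z r y
  add3 : ∀ p z r s y, f p z (r + s) y = f p z r y + f p z s y
  skewL : ∀ p z r y, f p z r y = - f z p r y
  skewR : ∀ p z r y, f p z r y = - f p z y r
  t1 : ∀ a b c z y, f a z (b * c) y + f b z (c * a) y + f c z (a * b) y = 0
  t2 : ∀ a b c z y, f (b * c) z a y + f (c * a) z b y + f (a * b) z c y = 0

/-- monomials -/
inductive Tr where
  | v (n : ℕ) : Tr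
  | m (a b : Tr) : Tr

namespace Tr

/-- equality test -/
def beq : Tr → Tr → Bool
  | v i, v j => Nat.beq i j
  | m a b, m c d => beq a c && beq b d
  | v _, m _ _ => false
  | m _ _, v _ => false

theorem beq_eq : ∀ a b : Tr, beq a b = true → a = b
  | v i, v j, h => by
    have h1 : i = j := Nat.eq_of_beq_eq_true h
    rw [h1]
  | m a b, m c d, h => by
    have h1 : (beq a c && beq b d) = true := h
    rw [Bool.and_eq_true] at h1
    rw [beq_eq a c h1.1, beq_eq b d h1.2]
  | v _, m _ _, h => by simp [beq] at h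
  | m _ _, v _, h => by simp [beq] at h

/-- order -/
def lt : Tr → Tr → Bool
  | v i, v j => Nat.blt i j
  | m a b, m c d => bif beq a c then lt b d else lt a c
  | v _, m _ _ => true
  | m _ _, v _ => false

/-- product with sorted factors -/
def mk (a b : Tr) : Tr := bif lt b a then m b a else m a b

variable {A : Type*} [NonUnitalNonAssocCommRing A] (x : ℕ → A)

/-- evaluation -/
def ev : Tr → A
  | v n => x n
  | m a b => ev a * ev b

theorem ev_mk (a b : Tr) : ev x (mk a b) = ev x a * ev x b := by
  unfold mk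
  cases lt b a
  · rfl
  · exact mul_comm _ _

end Tr

section Pol

variable {A : Type*} [NonUnitalNonAssocCommRing A] (x : ℕ → A)

/-- value of a polynomial -/
def evP : List (ℤ × Tr) → A
  | [] => 0
  | p :: l => p.1 • p.2.ev x + evP l

/-- add a term -/
def addT (c : ℤ) (t : Tr) : List (ℤ × Tr) → List (ℤ × Tr)
  | [] => [(c, t)]
  | p :: l => bif Tr.beq t p.2 then (c + p.1, p.2) :: l else p :: addT c t l

theorem evP_addT (c : ℤ) (t : Tr) (l : List (ℤ × Tr)) :
    evP x (addT c t l) = c • t.ev x + evP x l := by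
  induction l with
  | nil => simp [addT, evP]
  | cons p l ih =>
    unfold addT
    cases h : Tr.beq t p.2
    · show p.1 • p.2.ev x + evP x (addT c t l) = _
      rw [ih]
      show _ = c • t.ev x + (p.1 • p.2.ev x + evP x l)
      abel
    · show (c + p.1) • p.2.ev x + evP x l = c • t.ev x + (p.1 • p.2.ev x + evP x l)
      rw [Tr.beq_eq _ _ h, add_smul, add_assoc]

/-- all coefficients vanish -/
def allZ : List (ℤ × Tr) → Bool
  | [] => true
  | p :: l => decide (p.1 = 0) && allZ l

theorem evP_allZ (l : List (ℤ × Tr)) (h : allZ l = true) : evP x l = 0 := by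
  induction l with
  | nil => rfl
  | cons p l ih =>
    have h1 : (decide (p.1 = 0) && allZ l) = true := h
    rw [Bool.and_eq_true, decide_eq_true_eq] at h1
    show p.1 • p.2.ev x + evP x l = 0
    rw [h1.1, ih h1.2, zero_smul, zero_add]

/-- an instance of (A) (`k = true`) or (B) with outer factors `w` -/
structure JIt where
  c : ℤ
  k : Bool
  a : Tr
  b : Tr
  d : Tr
  e : Tr
  w : List Tr

/-- outer factors -/
def outer (w : List Tr) (t : Tr) : Tr := w.foldl (fun s u => Tr.mk s u) t

theorem ev_outer_add (w : List Tr) (s t u : Tr) (h : s.ev x + t.ev x + u.ev x = 0) :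
    (outer w s).ev x + (outer w t).ev x + (outer w u).ev x = 0 := by
  induction w generalizing s t u with
  | nil => exact h
  | cons v w ih =>
    refine ih _ _ _ ?_
    rw [Tr.ev_mk, Tr.ev_mk, Tr.ev_mk, ← add_mul, ← add_mul, h, zero_mul]

/-- the three terms -/
def JIt.t1 (i : JIt) : Tr := outer i.w (bif i.k then Tr.mk (Tr.mk i.a i.b) (Tr.mk i.d i.e)
  else Tr.mk i.d (Tr.mk (Tr.mk i.a i.b) i.e))
def JIt.t2 (i : JIt) : Tr := outer i.w (bif i.k then Tr.mk (Tr.mk i.a i.d) (Tr.mk i.b i.e)
  else Tr.mk i.a (Tr.mk (Tr.mk i.b i.d) i.e))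
def JIt.t3 (i : JIt) : Tr := outer i.w (bif i.k then Tr.mk (Tr.mk i.a i.e) (Tr.mk i.b i.d)
  else Tr.mk i.b (Tr.mk (Tr.mk i.d i.a) i.e))

variable [IsCommJordan A] (hT : TF A) (h4 : ∀ a : A, a * (a * (a * a)) = 0)

include hT h4 in
theorem JIt.sound (i : JIt) : i.t1.ev x + i.t2.ev x + i.t3.ev x = 0 := by
  unfold JIt.t1 JIt.t2 JIt.t3
  refine ev_outer_add x _ _ _ _ ?_
  cases i.k
  · show (Tr.mk i.d (Tr.mk (Tr.mk i.a i.b) i.e)).ev x +
      (Tr.mk i.a (Tr.mk (Tr.mk i.b i.d) i.e)).ev x +
      (Tr.mk i.b (Tr.mk (Tr.mk i.d i.a) i.e)).ev x = 0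
    simp only [Tr.ev_mk]
    exact idB hT h4 _ _ _ _
  · show (Tr.mk (Tr.mk i.a i.b) (Tr.mk i.d i.e)).ev x +
      (Tr.mk (Tr.mk i.a i.d) (Tr.mk i.b i.e)).ev x +
      (Tr.mk (Tr.mk i.a i.e) (Tr.mk i.b i.d)).ev x = 0
    simp only [Tr.ev_mk]
    exact idA hT h4 _ _ _ _

/-- add `- c` times an instance -/
def addI (i : JIt) (l : List (ℤ × Tr)) : List (ℤ × Tr) :=
  addT (-i.c) i.t1 (addT (-i.c) i.t2 (addT (-i.c) i.t3 l))

include hT h4 in
theorem evP_addI (i : JIt) (l : List (ℤ × Tr)) : evP x (addI i l) = evP x l := by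
  unfold addI
  rw [evP_addT, evP_addT, evP_addT, ← add_assoc, ← add_assoc, ← smul_add, ← smul_add,
    JIt.sound x hT h4, smul_zero, zero_add]

/-- add several instances -/
def addIs : List JIt → List (ℤ × Tr) → List (ℤ × Tr)
  | [], l => l
  | i :: is, l => addIs is (addI i l)

include hT h4 in
theorem evP_addIs (is : List JIt) (l : List (ℤ × Tr)) : evP x (addIs is l) = evP x l := by
  induction is generalizing l with
  | nil => rfl
  | cons i is ih =>
    show evP x (addIs is (addI i l)) = _
    rw [ih, evP_addI x hT h4]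

end Pol

/-- a linear combination of listed monomials -/
abbrev Cmb := List (ℤ × ℕ)

section Row

variable {A : Type*} [NonUnitalNonAssocCommRing A]

/-- value of a combination -/
def evC {N : Type*} [AddCommGroup N] (g : ℕ → N) : Cmb → N
  | [] => 0
  | p :: l => p.1 • g p.2 + evC g l

/-- subtract a combination -/
def subC (B : ℕ → Tr) : Cmb → List (ℤ × Tr) → List (ℤ × Tr)
  | [], l => l
  | p :: c, l => subC B c (addT (-p.1) (B p.2) l)

theorem evP_subC (x : ℕ → A) (B : ℕ → Tr) (c : Cmb) (l : List (ℤ × Tr)) :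
    evP x (subC B c l) = evP x l - evC (fun k => (B k).ev x) c := by
  induction c generalizing l with
  | nil => simp [subC, evC]
  | cons p c ih =>
    show evP x (subC B c (addT (-p.1) (B p.2) l)) = evP x l -
      (p.1 • (B p.2).ev x + evC (fun k => (B k).ev x) c)
    rw [ih, evP_addT, neg_smul]
    abel

/-- a product of two listed monomials as a combination of listed monomials -/
structure Row where
  i : ℕ
  j : ℕ
  c : Cmb
  w : List JIt

/-- the check of a row: `D B_i B_j = c` -/
def chkRow (B : ℕ → Tr) (D : ℤ) (r : Row) : Bool :=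
  allZ (addIs r.w (subC B r.c [(D, Tr.mk (B r.i) (B r.j))]))

theorem row_sound (x : ℕ → A) [IsCommJordan A] (hT : TF A)
    (h4 : ∀ a : A, a * (a * (a * a)) = 0) (B : ℕ → Tr) (D : ℤ) (r : Row)
    (h : chkRow B D r = true) :
    D • ((B r.i).ev x * (B r.j).ev x) = evC (fun k => (B k).ev x) r.c := by
  have h1 := evP_allZ x _ h
  rw [evP_addIs x hT h4, evP_subC] at h1
  have h2 : evP x [(D, Tr.mk (B r.i) (B r.j))] = D • ((B r.i).ev x * (B r.j).ev x) := by
    show D • (Tr.mk (B r.i) (B r.j)).ev x + 0 = _
    rw [Tr.ev_mk, add_zero]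
  rw [h2] at h1
  exact sub_eq_zero.mp h1

/-- look up a product -/
def look (i j : ℕ) : List Row → Option Cmb
  | [] => none
  | r :: l => bif (Nat.beq r.i i && Nat.beq r.j j) || (Nat.beq r.i j && Nat.beq r.j i)
      then some r.c else look i j l

theorem look_sound (x : ℕ → A) (B : ℕ → Tr) (D : ℤ) (T : List Row)
    (hr : ∀ r ∈ T, D • ((B r.i).ev x * (B r.j).ev x) = evC (fun k => (B k).ev x) r.c)
    (i j : ℕ) (c : Cmb) (h : look i j T = some c) :
    D • ((B i).ev x * (B j).ev x) = evC (fun k => (B k).ev x) c := by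
  induction T with
  | nil => simp [look] at h
  | cons r l ih =>
    unfold look at h
    cases hc : (Nat.beq r.i i && Nat.beq r.j j) || (Nat.beq r.i j && Nat.beq r.j i)
    · rw [hc] at h
      exact ih (fun r hr' => hr r (List.mem_cons_of_mem _ hr')) h
    · rw [hc] at h
      have h1 : some r.c = some c := h
      have h2 : r.c = c := Option.some.inj h1
      have h3 := hr r List.mem_cons_self
      rw [h2] at h3
      rw [Bool.or_eq_true, Bool.and_eq_true, Bool.and_eq_true] at hc
      rcases hc with hc | hc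
      · rw [← Nat.eq_of_beq_eq_true hc.1, ← Nat.eq_of_beq_eq_true hc.2]
        exact h3
      · rw [← Nat.eq_of_beq_eq_true hc.1, ← Nat.eq_of_beq_eq_true hc.2,
          mul_comm ((B r.j).ev x)]
        exact h3

end Row

/-- tables of values, as search trees -/
inductive BT where
  | leaf : BT
  | node (l : BT) (k : ℕ × ℕ × ℕ × ℕ) (key : ℕ) (c : ℤ) (r : BT) : BT

/-- the key of a token -/
def keyOf (i j k l : ℕ) : ℕ := ((i * 256 + j) * 256 + k) * 256 + l

namespace BT

variable {N : Type*} [AddCommGroup N] (g : ℕ → ℕ → ℕ → ℕ → N)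

/-- value -/
def ev : BT → N
  | leaf => 0
  | node l k _ c r => ev l + (c • g k.1 k.2.1 k.2.2.1 k.2.2.2 + ev r)

/-- equality of quadruples -/
def qeq (p q : ℕ × ℕ × ℕ × ℕ) : Bool :=
  Nat.beq p.1 q.1 && (Nat.beq p.2.1 q.2.1 && (Nat.beq p.2.2.1 q.2.2.1 && Nat.beq p.2.2.2 q.2.2.2))

theorem qeq_eq (p q : ℕ × ℕ × ℕ × ℕ) (h : qeq p q = true) : p = q := by
  unfold qeq at h
  rw [Bool.and_eq_true, Bool.and_eq_true, Bool.and_eq_true] at h
  obtain ⟨h1, h2, h3, h4⟩ := h
  exact Prod.ext (Nat.eq_of_beq_eq_true h1) (Prod.ext (Nat.eq_of_beq_eq_true h2)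
    (Prod.ext (Nat.eq_of_beq_eq_true h3) (Nat.eq_of_beq_eq_true h4)))

/-- insertion -/
def ins (q : ℕ × ℕ × ℕ × ℕ) (key : ℕ) (c : ℤ) : BT → BT
  | leaf => node leaf q key c leaf
  | node l k key' d r => bif Nat.blt key key' then node (ins q key c l) k key' d r
      else bif qeq q k then node l k key' (c + d) r
      else node l k key' d (ins q key c r)

theorem ev_ins (q : ℕ × ℕ × ℕ × ℕ) (key : ℕ) (c : ℤ) (t : BT) :
    ev g (ins q key c t) = c • g q.1 q.2.1 q.2.2.1 q.2.2.2 + ev g t := by
  induction t with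
  | leaf => simp [ins, ev]
  | node l k key' d r ihl ihr =>
    unfold ins
    cases Nat.blt key key'
    · cases h : qeq q k
      · show ev g l + (d • g k.1 k.2.1 k.2.2.1 k.2.2.2 + ev g (ins q key c r)) = _
        rw [ihr]
        show _ = _ + (ev g l + (d • g k.1 k.2.1 k.2.2.1 k.2.2.2 + ev g r))
        abel
      · show ev g l + ((c + d) • g k.1 k.2.1 k.2.2.1 k.2.2.2 + ev g r) =
          _ + (ev g l + (d • g k.1 k.2.1 k.2.2.1 k.2.2.2 + ev g r))
        rw [qeq_eq q k h, add_smul]
        abel
    · show ev g (ins q key c l) + (d • g k.1 k.2.1 k.2.2.1 k.2.2.2 + ev g r) =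
        _ + (ev g l + (d • g k.1 k.2.1 k.2.2.1 k.2.2.2 + ev g r))
      rw [ihl]
      abel

/-- all coefficients vanish -/
def allZero : BT → Bool
  | leaf => true
  | node l _ _ c r => decide (c = 0) && (allZero l && allZero r)

theorem ev_allZero (t : BT) (h : allZero t = true) : ev g t = 0 := by
  induction t with
  | leaf => rfl
  | node l k key c r ihl ihr =>
    have h1 : (decide (c = 0) && (allZero l && allZero r)) = true := h
    rw [Bool.and_eq_true, Bool.and_eq_true, decide_eq_true_eq] at h1
    show ev g l + (c • g k.1 k.2.1 k.2.2.1 k.2.2.2 + ev g r) = 0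
    rw [h1.1, ihl h1.2.1, ihr h1.2.2, zero_smul, zero_add, zero_add]

/-- add a token after normalization -/
def tok (i j k l : ℕ) (c : ℤ) (t : BT) : BT :=
  bif Nat.beq i j || Nat.beq k l then t else
  bif Nat.blt i j then
    (bif Nat.blt k l then ins (i, j, k, l) (keyOf i j k l) c t
      else ins (i, j, l, k) (keyOf i j l k) (-c) t)
  else
    (bif Nat.blt k l then ins (j, i, k, l) (keyOf j i k l) (-c) t
      else ins (j, i, l, k) (keyOf j i l k) c t)

theorem ev_tok (h1 : ∀ i j k l, g i j k l = - g j i k l) (h2 : ∀ i j k l, g i j k l = - g i j l k)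
    (h3 : ∀ i k l, g i i k l = 0) (h4 : ∀ i j k, g i j k k = 0)
    (i j k l : ℕ) (c : ℤ) (t : BT) : ev g (tok i j k l c t) = c • g i j k l + ev g t := by
  unfold tok
  cases hc : Nat.beq i j || Nat.beq k l
  · cases Nat.blt i j
    · cases Nat.blt k l
      · show ev g (ins (j, i, l, k) (keyOf j i l k) c t) = _
        rw [ev_ins]
        show c • g j i l k + _ = _
        rw [h1 j i l k, h2 i j l k, neg_neg]
      · show ev g (ins (j, i, k, l) (keyOf j i k l) (-c) t) = _
        rw [ev_ins]
        show (-c) • g j i k l + _ = _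
        rw [h1 j i k l, smul_neg, neg_smul, neg_neg]
    · cases Nat.blt k l
      · show ev g (ins (i, j, l, k) (keyOf i j l k) (-c) t) = _
        rw [ev_ins]
        show (-c) • g i j l k + _ = _
        rw [h2 i j l k, smul_neg, neg_smul, neg_neg]
      · show ev g (ins (i, j, k, l) (keyOf i j k l) c t) = _
        rw [ev_ins]
  · show ev g t = _
    rw [Bool.or_eq_true] at hc
    rcases hc with hc | hc
    · rw [Nat.eq_of_beq_eq_true hc, h3, smul_zero, zero_add]
    · rw [Nat.eq_of_beq_eq_true hc, h4, smul_zero, zero_add]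

end BT

/-- an instance of a cyclic relation: `ty = true` is the relation `t1` -/
structure FIt where
  c : ℤ
  ty : Bool
  a : ℕ
  b : ℕ
  d : ℕ
  z : ℕ
  y : ℕ

/-- add the tokens of one term -/
def addC (ty : Bool) (a z y : ℕ) (c : ℤ) : Cmb → BT → BT
  | [], t => t
  | p :: l, t => addC ty a z y c l
      (bif ty then BT.tok a z p.2 y (c * p.1) t else BT.tok p.2 z a y (c * p.1) t)

/-- add an instance -/
def addF (T : List Row) (i : FIt) (t : BT) : Option BT :=
  match look i.b i.d T, look i.d i.a T, look i.a i.b T with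
  | some c1, some c2, some c3 =>
    some (addC i.ty i.d i.z i.y i.c c3 (addC i.ty i.b i.z i.y i.c c2
      (addC i.ty i.a i.z i.y i.c c1 t)))
  | _, _, _ => none

/-- add several instances -/
def addFs (T : List Row) : List FIt → BT → Option BT
  | [], t => some t
  | i :: l, t => match addF T i t with
    | some s => addFs T l s
    | none => none

/-- the check of a certificate -/
def chkF (T : List Row) (N : ℤ) (i j k l : ℕ) (L : List FIt) : Bool :=
  match addFs T L (BT.tok i j k l N BT.leaf) with
  | some t => t.allZero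
  | none => false

section Sound

variable {A M : Type*} [NonUnitalNonAssocCommRing A] [AddCommGroup M] (F : Tok A M)

theorem Tok.zero1 (z r y : A) : F.f 0 z r y = 0 := by
  have h := F.add1 0 0 z r y
  rw [add_zero] at h
  exact left_eq_add.mp h

theorem Tok.zero3 (p z y : A) : F.f p z 0 y = 0 := by
  have h := F.add3 p z 0 0 y
  rw [add_zero] at h
  exact left_eq_add.mp h

/-- the first argument -/
def Tok.h1 (z r y : A) : A →+ M where
  toFun p := F.f p z r y
  map_zero' := F.zero1 z r y
  map_add' p q := F.add1 p q z r y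

/-- the third argument -/
def Tok.h3 (p z y : A) : A →+ M where
  toFun r := F.f p z r y
  map_zero' := F.zero3 p z y
  map_add' r s := F.add3 p z r s y

theorem Tok.smul1 (n : ℤ) (p z r y : A) : F.f (n • p) z r y = n • F.f p z r y :=
  map_zsmul (F.h1 z r y) n p

theorem Tok.smul3 (n : ℤ) (p z r y : A) : F.f p z (n • r) y = n • F.f p z r y :=
  map_zsmul (F.h3 p z y) n r

theorem Tok.diag1 (hM : TF M) (p r y : A) : F.f p p r y = 0 := by
  refine hM.two _ ?_
  have h := F.skewL p p r y
  rw [two_smul]
  nth_rewrite 2 [h]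
  exact add_neg_cancel _

theorem Tok.diag3 (hM : TF M) (p z r : A) : F.f p z r r = 0 := by
  refine hM.two _ ?_
  have h := F.skewR p z r r
  rw [two_smul]
  nth_rewrite 2 [h]
  exact add_neg_cancel _

theorem Tok.evC1 (e : ℕ → A) (c : Cmb) (z r y : A) :
    F.f (evC e c) z r y = evC (fun k => F.f (e k) z r y) c := by
  induction c with
  | nil => exact F.zero1 z r y
  | cons p l ih =>
    show F.f (p.1 • e p.2 + evC e l) z r y = p.1 • F.f (e p.2) z r y + _
    rw [F.add1, F.smul1, ih]

theorem Tok.evC3 (e : ℕ → A) (c : Cmb) (p z y : A) :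
    F.f p z (evC e c) y = evC (fun k => F.f p z (e k) y) c := by
  induction c with
  | nil => exact F.zero3 p z y
  | cons q l ih =>
    show F.f p z (q.1 • e q.2 + evC e l) y = q.1 • F.f p z (e q.2) y + _
    rw [F.add3, F.smul3, ih]

variable (e : ℕ → A)

/-- values of tokens -/
def Tok.g (i j k l : ℕ) : M := F.f (e i) (e j) (e k) (e l)

theorem Tok.ev_tok (hM : TF M) (i j k l : ℕ) (c : ℤ) (t : BT) :
    BT.ev (F.g e) (BT.tok i j k l c t) = c • F.g e i j k l + BT.ev (F.g e) t :=
  BT.ev_tok (F.g e) (fun i j k l => F.skewL (e i) (e j) (e k) (e l))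
    (fun i j k l => F.skewR (e i) (e j) (e k) (e l))
    (fun i k l => F.diag1 hM (e i) (e k) (e l)) (fun i j k => F.diag3 hM (e i) (e j) (e k))
    i j k l c t

theorem Tok.ev_addC_true (hM : TF M) (a z y : ℕ) (c : ℤ) (q : Cmb) (t : BT) :
    BT.ev (F.g e) (addC true a z y c q t) =
      c • F.f (e a) (e z) (evC e q) (e y) + BT.ev (F.g e) t := by
  induction q generalizing t with
  | nil =>
    show BT.ev (F.g e) t = c • F.f (e a) (e z) 0 (e y) + _
    rw [F.zero3, smul_zero, zero_add]
  | cons p l ih =>
    show BT.ev (F.g e) (addC true a z y c l (BT.tok a z p.2 y (c * p.1) t)) =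
      c • F.f (e a) (e z) (p.1 • e p.2 + evC e l) (e y) + _
    rw [ih, F.ev_tok e hM, F.add3, F.smul3, smul_add, mul_smul]
    show _ = c • p.1 • F.g e a z p.2 y + _ + _
    abel

theorem Tok.ev_addC_false (hM : TF M) (a z y : ℕ) (c : ℤ) (q : Cmb) (t : BT) :
    BT.ev (F.g e) (addC false a z y c q t) =
      c • F.f (evC e q) (e z) (e a) (e y) + BT.ev (F.g e) t := by
  induction q generalizing t with
  | nil =>
    show BT.ev (F.g e) t = c • F.f 0 (e z) (e a) (e y) + _
    rw [F.zero1, smul_zero, zero_add]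
  | cons p l ih =>
    show BT.ev (F.g e) (addC false a z y c l (BT.tok p.2 z a y (c * p.1) t)) =
      c • F.f (p.1 • e p.2 + evC e l) (e z) (e a) (e y) + _
    rw [ih, F.ev_tok e hM, F.add1, F.smul1, smul_add, mul_smul]
    show _ = c • p.1 • F.g e p.2 z a y + _ + _
    abel

theorem Tok.ev_addF (hM : TF M) (D : ℤ) (T : List Row)
    (hl : ∀ i j c, look i j T = some c → D • (e i * e j) = evC e c)
    (i : FIt) (t s : BT) (h : addF T i t = some s) :
    BT.ev (F.g e) s = BT.ev (F.g e) t := by
  unfold addF at h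
  cases h1 : look i.b i.d T with
  | none => rw [h1] at h; simp at h
  | some c1 =>
    cases h2 : look i.d i.a T with
    | none => rw [h1, h2] at h; simp at h
    | some c2 =>
      cases h3 : look i.a i.b T with
      | none => rw [h1, h2, h3] at h; simp at h
      | some c3 =>
        rw [h1, h2, h3] at h
        have h5 : addC i.ty i.d i.z i.y i.c c3 (addC i.ty i.b i.z i.y i.c c2
          (addC i.ty i.a i.z i.y i.c c1 t)) = s := Option.some.inj h
        rw [← h5]
        have e1 := hl _ _ _ h1
        have e2 := hl _ _ _ h2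
        have e3 := hl _ _ _ h3
        cases i.ty
        · rw [F.ev_addC_false e hM, F.ev_addC_false e hM, F.ev_addC_false e hM, ← e1, ← e2,
            ← e3, F.smul1, F.smul1, F.smul1, ← add_assoc, ← add_assoc, ← smul_add, ← smul_add,
            ← smul_add, ← smul_add]
          have h6 := F.t2 (e i.a) (e i.b) (e i.d) (e i.z) (e i.y)
          have h7 : F.f (e i.a * e i.b) (e i.z) (e i.d) (e i.y) +
              F.f (e i.d * e i.a) (e i.z) (e i.b) (e i.y) +
              F.f (e i.b * e i.d) (e i.z) (e i.a) (e i.y) = 0 := by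
            rw [← h6]; abel
          rw [h7, smul_zero, smul_zero, zero_add]
        · rw [F.ev_addC_true e hM, F.ev_addC_true e hM, F.ev_addC_true e hM, ← e1, ← e2,
            ← e3, F.smul3, F.smul3, F.smul3, ← add_assoc, ← add_assoc, ← smul_add, ← smul_add,
            ← smul_add, ← smul_add]
          have h6 := F.t1 (e i.a) (e i.b) (e i.d) (e i.z) (e i.y)
          have h7 : F.f (e i.d) (e i.z) (e i.a * e i.b) (e i.y) +
              F.f (e i.b) (e i.z) (e i.d * e i.a) (e i.y) +
              F.f (e i.a) (e i.z) (e i.b * e i.d) (e i.y) = 0 := by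
            rw [← h6]; abel
          rw [h7, smul_zero, smul_zero, zero_add]

theorem Tok.ev_addFs (hM : TF M) (D : ℤ) (T : List Row)
    (hl : ∀ i j c, look i j T = some c → D • (e i * e j) = evC e c)
    (L : List FIt) (t s : BT) (h : addFs T L t = some s) :
    BT.ev (F.g e) s = BT.ev (F.g e) t := by
  induction L generalizing t with
  | nil =>
    have h1 : some t = some s := h
    rw [Option.some.inj h1]
  | cons i l ih =>
    unfold addFs at h
    cases h1 : addF T i t with
    | none => rw [h1] at h; simp at h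
    | some u =>
      rw [h1] at h
      rw [ih u h, F.ev_addF e hM D T hl i t u h1]

theorem Tok.sound (hM : TF M) (D : ℤ) (T : List Row)
    (hl : ∀ i j c, look i j T = some c → D • (e i * e j) = evC e c)
    (N : ℤ) (i j k l : ℕ) (L : List FIt) (h : chkF T N i j k l L = true) :
    N • F.f (e i) (e j) (e k) (e l) = 0 := by
  unfold chkF at h
  cases h1 : addFs T L (BT.tok i j k l N BT.leaf) with
  | none => rw [h1] at h; simp at h
  | some t =>
    rw [h1] at h
    have h2 := BT.ev_allZero (F.g e) t h
    rw [F.ev_addFs e hM D T hl L _ t h1, F.ev_tok e hM] at h2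
    have h3 : N • F.g e i j k l + 0 = 0 := h2
    rw [add_zero] at h3
    exact h3

end Sound

end Pool.Agent.H.MP_e16c79_al.F4
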