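import Pool.Agent.H.MP_e16c79_al.F4.Chk

/-!
# MP_e16c79_al, index four: data of the certificate
-/

set_option autoImplicit false
set_option maxRecDepth 100000

namespace Pool.Agent.H.MP_e16c79_al.F4

open Tr

/-- letters -/
abbrev a0 : Tr := v 0
abbrev b0 : Tr := v 1
abbrev c0 : Tr := v 2
abbrev d0 : Tr := v 3
abbrev e0 : Tr := v 4

/-- the monomials -/
def monos : List Tr := [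
  e0,
  d0,
  (m c0 (m b0 b0)),
  (m a0 (m c0 (m a0 d0))),
  (m c0 (m a0 a0)),
  (m b0 (m c0 (m b0 d0))),
  (m (m a0 b0) (m b0 d0)),
  (m a0 (m c0 c0)),
  (m (m a0 a0) (m b0 d0)),
  (m b0 (m c0 c0)),
  b0,
  (m c0 (m a0 d0)),
  (m a0 (m c0 (m b0 d0))),
  (m b0 (m c0 (m a0 d0))),
  a0,
  (m c0 (m b0 d0)),
  (m c0 c0),
  (m (m b0 b0) (m d0 d0)),
  (m a0 a0),
  (m (m a0 b0) (m d0 d0)),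
  (m a0 b0),
  (m (m a0 a0) (m d0 d0)),
  (m b0 b0),
  (m (m a0 a0) (m b0 b0)),
  (m d0 d0),
  (m c0 (m d0 d0)),
  (m c0 (m a0 b0)),
  (m a0 d0),
  (m b0 d0),
  (m a0 (m c0 (m a0 e0))),
  (m b0 (m c0 (m b0 e0))),
  (m (m a0 b0) (m b0 e0)),
  (m (m a0 a0) (m b0 e0)),
  (m c0 (m b0 e0)),
  (m c0 (m a0 e0)),
  (m (m a0 a0) (m d0 e0)),
  (m d0 (m c0 c0)),
  (m c0 (m d0 e0)),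
  (m a0 (m c0 (m d0 d0))),
  (m a0 (m c0 (m d0 e0))),
  (m b0 (m c0 (m d0 d0))),
  (m b0 (m c0 (m d0 e0))),
  (m (m a0 b0) (m d0 e0)),
  (m e0 (m c0 c0)),
  (m (m b0 d0) (m d0 e0)),
  (m (m a0 d0) (m b0 e0)),
  (m b0 e0),
  (m (m b0 b0) (m d0 e0)),
  (m (m a0 d0) (m d0 e0)),
  (m a0 e0),
  (m a0 (m c0 (m b0 e0))),
  (m b0 (m c0 (m a0 e0))),
  (m (m b0 b0) (m e0 e0)),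
  (m (m a0 b0) (m e0 e0)),
  (m (m a0 a0) (m e0 e0)),
  (m e0 e0),
  (m c0 (m e0 e0)),
  (m a0 (m c0 (m e0 e0))),
  (m b0 (m c0 (m e0 e0))),
  (m (m b0 d0) (m e0 e0)),
  (m (m a0 d0) (m e0 e0)),
  c0,
  (m d0 e0),
  (m d0 (m c0 (m d0 e0))),
  (m d0 (m c0 (m e0 e0))),
  (m a0 (m c0 (m a0 b0))),
  (m a0 (m c0 (m b0 b0))),
  (m d0 (m c0 (m a0 e0))),
  (m d0 (m c0 (m b0 e0))),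
  (m a0 (m (m a0 b0) (m b0 d0))),
  (m a0 (m (m a0 b0) (m b0 e0))),
  (m a0 (m (m a0 b0) (m d0 d0))),
  (m a0 (m (m a0 b0) (m d0 e0))),
  (m a0 (m (m a0 b0) (m e0 e0))),
  (m a0 (m (m a0 d0) (m b0 e0))),
  (m a0 (m (m b0 b0) (m d0 d0))),
  (m a0 (m (m b0 b0) (m d0 e0))),
  (m a0 (m (m b0 b0) (m e0 e0))),
  (m b0 (m (m a0 d0) (m b0 e0))),
  (m a0 (m (m a0 d0) (m d0 e0))),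
  (m a0 (m (m a0 d0) (m e0 e0))),
  (m a0 (m (m d0 d0) (m e0 e0))),
  (m b0 (m (m b0 d0) (m d0 e0))),
  (m b0 (m (m b0 d0) (m e0 e0))),
  (m b0 (m (m d0 d0) (m e0 e0))),
  (m a0 (m c0 (m a0 (m c0 (m b0 b0))))),
  (m a0 (m c0 (m a0 (m c0 (m b0 d0))))),
  (m a0 (m c0 (m a0 (m c0 (m b0 e0))))),
  (m a0 (m c0 (m a0 (m c0 (m d0 d0))))),
  (m a0 (m c0 (m a0 (m c0 (m e0 e0))))),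
  (m a0 (m c0 (m b0 (m c0 (m d0 d0))))),
  (m b0 (m c0 (m a0 (m c0 (m d0 d0))))),
  (m a0 (m c0 (m b0 (m c0 (m e0 e0))))),
  (m b0 (m c0 (m a0 (m c0 (m e0 e0))))),
  (m a0 (m c0 (m a0 (m c0 (m d0 e0))))),
  (m a0 (m c0 (m b0 (m c0 (m b0 d0))))),
  (m b0 (m c0 (m a0 (m c0 (m b0 d0))))),
  (m a0 (m c0 (m d0 (m c0 (m b0 e0))))),
  (m d0 (m c0 (m a0 (m c0 (m b0 e0))))),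
  (m a0 (m c0 (m d0 (m c0 (m d0 e0))))),
  (m d0 (m c0 (m a0 (m c0 (m d0 e0))))),
  (m a0 (m c0 (m d0 (m c0 (m e0 e0))))),
  (m d0 (m c0 (m a0 (m c0 (m e0 e0))))),
  (m a0 (m c0 (m b0 (m c0 (m b0 e0))))),
  (m b0 (m c0 (m a0 (m c0 (m b0 e0))))),
  (m a0 (m c0 (m b0 (m c0 (m d0 e0))))),
  (m b0 (m c0 (m a0 (m c0 (m d0 e0))))),
  (m b0 (m c0 (m b0 (m c0 (m d0 d0))))),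
  (m b0 (m c0 (m b0 (m c0 (m e0 e0))))),
  (m b0 (m c0 (m b0 (m c0 (m d0 e0))))),
  (m b0 (m c0 (m d0 (m c0 (m d0 e0))))),
  (m d0 (m c0 (m b0 (m c0 (m d0 e0))))),
  (m b0 (m c0 (m d0 (m c0 (m e0 e0))))),
  (m d0 (m c0 (m b0 (m c0 (m e0 e0)))))]

/-- the monomial with a given number -/
def mono (k : ℕ) : Tr := monos.getD k a0

/-- products -/
def rows0 : List Row := [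
  ⟨0, 0, [(4, 55)], []⟩,
  ⟨0, 1, [(4, 62)], []⟩,
  ⟨0, 2, [(-8, 30)], [⟨4, false, b0, b0, e0, c0, []⟩]⟩,
  ⟨0, 4, [(-8, 29)], [⟨4, false, a0, a0, e0, c0, []⟩]⟩,
  ⟨0, 6, [(4, 78)], [⟨-2, false, b0, b0, e0, (m a0 d0), []⟩, ⟨2, true, a0, b0, b0, d0, [e0]⟩]⟩,
  ⟨0, 8, [(8, 72), (8, 74)], [⟨4, false, a0, a0, e0, (m b0 d0), []⟩, ⟨-8, true, a0, b0, d0, e0, [a0]⟩]⟩,
  ⟨0, 10, [(4, 46)], []⟩,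
  ⟨0, 11, [(-4, 39), (-4, 67)], [⟨4, false, a0, d0, e0, c0, []⟩]⟩,
  ⟨0, 14, [(4, 49)], []⟩,
  ⟨0, 15, [(-4, 41), (-4, 68)], [⟨4, false, b0, d0, e0, c0, []⟩]⟩,
  ⟨0, 16, [(4, 43)], []⟩,
  ⟨0, 17, [(16, 82)], [⟨4, false, d0, d0, e0, (m b0 b0), []⟩, ⟨-8, false, b0, b0, d0, (m d0 e0), []⟩]⟩,
  ⟨0, 21, [(16, 79)], [⟨4, false, d0, d0, e0, (m a0 a0), []⟩, ⟨-8, false, a0, a0, d0, (m d0 e0), []⟩]⟩,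
  ⟨0, 23, [(16, 70)], [⟨4, false, b0, b0, e0, (m a0 a0), []⟩, ⟨-8, false, a0, a0, b0, (m b0 e0), []⟩]⟩,
  ⟨0, 25, [(-8, 63)], [⟨4, false, d0, d0, e0, c0, []⟩]⟩,
  ⟨0, 26, [(-4, 50), (-4, 51)], [⟨4, false, a0, b0, e0, c0, []⟩]⟩,
  ⟨0, 31, [(1, 77)], [⟨-1, false, a0, e0, e0, (m b0 b0), []⟩, ⟨2, true, a0, b0, b0, e0, [e0]⟩]⟩,
  ⟨0, 32, [(4, 73)], [⟨4, false, a0, a0, e0, (m b0 e0), []⟩, ⟨-4, true, a0, b0, e0, e0, [a0]⟩]⟩,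
  ⟨0, 33, [(-2, 58)], [⟨2, false, b0, e0, e0, c0, []⟩]⟩,
  ⟨0, 34, [(-2, 57)], [⟨2, false, a0, e0, e0, c0, []⟩]⟩,
  ⟨0, 35, [(4, 80)], [⟨4, false, a0, a0, e0, (m d0 e0), []⟩, ⟨-4, true, a0, d0, e0, e0, [a0]⟩]⟩,
  ⟨0, 37, [(-2, 64)], [⟨2, false, d0, e0, e0, c0, []⟩]⟩,
  ⟨0, 44, [(1, 84)], [⟨-1, false, b0, e0, e0, (m d0 d0), []⟩, ⟨2, true, b0, d0, d0, e0, [e0]⟩]⟩,
  ⟨0, 47, [(4, 83)], [⟨4, false, b0, b0, e0, (m d0 e0), []⟩, ⟨-4, true, b0, d0, e0, e0, [b0]⟩]⟩,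
  ⟨0, 48, [(1, 81)], [⟨-1, false, a0, e0, e0, (m d0 d0), []⟩, ⟨2, true, a0, d0, d0, e0, [e0]⟩]⟩,
  ⟨1, 1, [(4, 24)], []⟩,
  ⟨1, 2, [(-8, 5)], [⟨4, false, b0, b0, d0, c0, []⟩]⟩,
  ⟨1, 4, [(-8, 3)], [⟨4, false, a0, a0, d0, c0, []⟩]⟩,
  ⟨1, 6, [(1, 75)], [⟨-1, false, a0, d0, d0, (m b0 b0), []⟩, ⟨2, true, a0, b0, b0, d0, [d0]⟩]⟩,
  ⟨1, 8, [(4, 71)], [⟨4, false, a0, a0, d0, (m b0 d0), []⟩, ⟨-4, true, a0, b0, d0, d0, [a0]⟩]⟩]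

/-- products -/
def rows1 : List Row := [
  ⟨1, 10, [(4, 28)], []⟩,
  ⟨1, 11, [(-2, 38)], [⟨2, false, a0, d0, d0, c0, []⟩]⟩,
  ⟨1, 14, [(4, 27)], []⟩,
  ⟨1, 15, [(-2, 40)], [⟨2, false, b0, d0, d0, c0, []⟩]⟩,
  ⟨1, 16, [(4, 36)], []⟩,
  ⟨1, 23, [(16, 69)], [⟨4, false, b0, b0, d0, (m a0 a0), []⟩, ⟨-8, false, a0, a0, b0, (m b0 d0), []⟩]⟩,
  ⟨1, 26, [(-4, 12), (-4, 13)], [⟨4, false, a0, b0, d0, c0, []⟩]⟩,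
  ⟨1, 31, [(-4, 78), (2, 76)], [⟨4, false, a0, b0, d0, (m b0 e0), []⟩, ⟨-2, true, b0, b0, d0, e0, [a0]⟩]⟩,
  ⟨1, 32, [(-8, 74)], [⟨4, false, a0, a0, d0, (m b0 e0), []⟩]⟩,
  ⟨1, 33, [(4, 68)], []⟩,
  ⟨1, 34, [(4, 67)], []⟩,
  ⟨1, 35, [(-8, 79)], [⟨4, false, a0, a0, d0, (m d0 e0), []⟩]⟩,
  ⟨1, 37, [(4, 63)], []⟩,
  ⟨1, 47, [(-8, 82)], [⟨4, false, b0, b0, d0, (m d0 e0), []⟩]⟩,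
  ⟨1, 52, [(-8, 83)], [⟨4, false, b0, b0, d0, (m e0 e0), []⟩]⟩,
  ⟨1, 54, [(-8, 80)], [⟨4, false, a0, a0, d0, (m e0 e0), []⟩]⟩,
  ⟨1, 56, [(4, 64)], []⟩,
  ⟨1, 59, [(-2, 84)], [⟨2, false, b0, d0, d0, (m e0 e0), []⟩]⟩,
  ⟨1, 60, [(-2, 81)], [⟨2, false, a0, d0, d0, (m e0 e0), []⟩]⟩,
  ⟨2, 4, [(-8, 85)], [⟨4, false, a0, a0, (m c0 (m b0 b0)), c0, []⟩]⟩,
  ⟨2, 11, [(8, 95), (8, 96)], [⟨-2, true, a0, b0, b0, d0, [(m c0 c0)]⟩, ⟨2, true, c0, c0, (m a0 d0), (m b0 b0), []⟩, ⟨4, true, c0, c0, (m a0 b0), (m b0 d0), []⟩, ⟨-8, false, a0, b0, (m c0 (m b0 d0)), c0, []⟩]⟩,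
  ⟨2, 14, [(4, 66)], []⟩,
  ⟨2, 25, [(-8, 107)], [⟨4, false, b0, b0, (m c0 (m d0 d0)), c0, []⟩]⟩,
  ⟨2, 34, [(8, 103), (8, 104)], [⟨-2, true, a0, b0, b0, e0, [(m c0 c0)]⟩, ⟨2, true, c0, c0, (m a0 e0), (m b0 b0), []⟩, ⟨4, true, c0, c0, (m a0 b0), (m b0 e0), []⟩, ⟨-8, false, a0, b0, (m c0 (m b0 e0)), c0, []⟩]⟩,
  ⟨2, 56, [(-8, 108)], [⟨4, false, b0, b0, (m c0 (m e0 e0)), c0, []⟩]⟩,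
  ⟨4, 10, [(-8, 65)], [⟨4, false, a0, a0, b0, c0, []⟩]⟩,
  ⟨4, 15, [(-8, 86)], [⟨4, false, a0, a0, (m c0 (m b0 d0)), c0, []⟩]⟩,
  ⟨4, 25, [(-8, 88)], [⟨4, false, a0, a0, (m c0 (m d0 d0)), c0, []⟩]⟩,
  ⟨4, 33, [(-8, 87)], [⟨4, false, a0, a0, (m c0 (m b0 e0)), c0, []⟩]⟩,
  ⟨4, 56, [(-8, 89)], [⟨4, false, a0, a0, (m c0 (m e0 e0)), c0, []⟩]⟩]

/-- products -/
def rows2 : List Row := [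
  ⟨6, 14, [(4, 69)], []⟩,
  ⟨6, 16, [(8, 95), (8, 96)], [⟨4, true, c0, c0, (m a0 b0), (m b0 d0), []⟩, ⟨-8, false, a0, b0, (m c0 (m b0 d0)), c0, []⟩]⟩,
  ⟨8, 10, [(-8, 69)], [⟨4, false, a0, a0, b0, (m b0 d0), []⟩]⟩,
  ⟨8, 16, [(16, 86)], [⟨-8, false, c0, c0, (m b0 d0), a0, [a0]⟩, ⟨4, false, a0, a0, (m c0 c0), (m b0 d0), []⟩]⟩,
  ⟨10, 10, [(4, 22)], []⟩,
  ⟨10, 11, [(4, 13)], []⟩,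
  ⟨10, 14, [(4, 20)], []⟩,
  ⟨10, 15, [(4, 5)], []⟩,
  ⟨10, 16, [(4, 9)], []⟩,
  ⟨10, 19, [(-2, 75)], [⟨2, false, a0, b0, b0, (m d0 d0), []⟩]⟩,
  ⟨10, 25, [(4, 40)], []⟩,
  ⟨10, 26, [(-2, 66)], [⟨2, false, a0, b0, b0, c0, []⟩]⟩,
  ⟨10, 32, [(-8, 70)], [⟨4, false, a0, a0, b0, (m b0 e0), []⟩]⟩,
  ⟨10, 33, [(4, 30)], []⟩,
  ⟨10, 34, [(4, 51)], []⟩,
  ⟨10, 37, [(4, 41)], []⟩,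
  ⟨10, 42, [(-2, 76)], [⟨2, false, a0, b0, b0, (m d0 e0), []⟩]⟩,
  ⟨10, 45, [(4, 78)], []⟩,
  ⟨10, 53, [(-2, 77)], [⟨2, false, a0, b0, b0, (m e0 e0), []⟩]⟩,
  ⟨10, 56, [(4, 58)], []⟩,
  ⟨11, 11, [(4, 88)], [⟨-2, false, c0, c0, (m d0 d0), a0, [a0]⟩, ⟨1, false, a0, a0, (m c0 c0), (m d0 d0), []⟩, ⟨-1, true, a0, a0, d0, d0, [(m c0 c0)]⟩, ⟨2, true, c0, c0, (m a0 d0), (m a0 d0), []⟩]⟩,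
  ⟨11, 14, [(4, 3)], []⟩,
  ⟨11, 15, [(2, 90), (2, 91)], [⟨-1, true, a0, b0, d0, d0, [(m c0 c0)]⟩, ⟨2, true, c0, c0, (m a0 d0), (m b0 d0), []⟩, ⟨1, true, c0, c0, (m a0 b0), (m d0 d0), []⟩, ⟨-2, false, a0, b0, (m c0 (m d0 d0)), c0, []⟩]⟩,
  ⟨11, 33, [(-4, 97), (-4, 98)], [⟨4, false, a0, d0, (m c0 (m b0 e0)), c0, []⟩]⟩,
  ⟨11, 34, [(4, 94)], [⟨-1, true, a0, a0, d0, e0, [(m c0 c0)]⟩, ⟨2, true, c0, c0, (m a0 d0), (m a0 e0), []⟩, ⟨1, true, c0, c0, (m a0 a0), (m d0 e0), []⟩, ⟨-2, false, a0, a0, (m c0 (m d0 e0)), c0, []⟩]⟩,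
  ⟨11, 37, [(-4, 99), (-4, 100)], [⟨4, false, a0, d0, (m c0 (m d0 e0)), c0, []⟩]⟩,
  ⟨11, 56, [(-4, 101), (-4, 102)], [⟨4, false, a0, d0, (m c0 (m e0 e0)), c0, []⟩]⟩,
  ⟨14, 14, [(4, 18)], []⟩,
  ⟨14, 15, [(4, 12)], []⟩,
  ⟨14, 16, [(4, 7)], []⟩]

/-- products -/
def rows3 : List Row := [
  ⟨14, 19, [(4, 71)], []⟩,
  ⟨14, 25, [(4, 38)], []⟩,
  ⟨14, 26, [(4, 65)], []⟩,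
  ⟨14, 31, [(4, 70)], []⟩,
  ⟨14, 33, [(4, 50)], []⟩,
  ⟨14, 34, [(4, 29)], []⟩,
  ⟨14, 37, [(4, 39)], []⟩,
  ⟨14, 42, [(4, 72)], []⟩,
  ⟨14, 45, [(4, 74)], []⟩,
  ⟨14, 53, [(4, 73)], []⟩,
  ⟨14, 56, [(4, 57)], []⟩,
  ⟨15, 15, [(4, 107)], [⟨-2, false, c0, c0, (m d0 d0), b0, [b0]⟩, ⟨1, false, b0, b0, (m c0 c0), (m d0 d0), []⟩, ⟨-1, true, b0, b0, d0, d0, [(m c0 c0)]⟩, ⟨2, true, c0, c0, (m b0 d0), (m b0 d0), []⟩]⟩,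
  ⟨15, 33, [(4, 109)], [⟨-1, true, b0, b0, d0, e0, [(m c0 c0)]⟩, ⟨2, true, c0, c0, (m b0 d0), (m b0 e0), []⟩, ⟨1, true, c0, c0, (m b0 b0), (m d0 e0), []⟩, ⟨-2, false, b0, b0, (m c0 (m d0 e0)), c0, []⟩]⟩,
  ⟨15, 34, [(4, 97), (4, 98), (4, 105), (4, 106)], [⟨-2, true, a0, b0, d0, e0, [(m c0 c0)]⟩, ⟨2, true, c0, c0, (m a0 e0), (m b0 d0), []⟩, ⟨2, true, c0, c0, (m a0 d0), (m b0 e0), []⟩, ⟨2, true, c0, c0, (m a0 b0), (m d0 e0), []⟩, ⟨-4, false, a0, d0, (m c0 (m b0 e0)), c0, []⟩, ⟨-4, false, a0, b0, (m c0 (m d0 e0)), c0, []⟩]⟩,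
  ⟨15, 37, [(-4, 110), (-4, 111)], [⟨4, false, b0, d0, (m c0 (m d0 e0)), c0, []⟩]⟩,
  ⟨15, 56, [(-4, 112), (-4, 113)], [⟨4, false, b0, d0, (m c0 (m e0 e0)), c0, []⟩]⟩,
  ⟨16, 17, [(16, 107)], [⟨-8, false, c0, c0, (m d0 d0), b0, [b0]⟩, ⟨4, false, b0, b0, (m c0 c0), (m d0 d0), []⟩]⟩,
  ⟨16, 19, [(8, 90), (8, 91)], [⟨4, true, c0, c0, (m a0 b0), (m d0 d0), []⟩, ⟨-8, false, a0, b0, (m c0 (m d0 d0)), c0, []⟩]⟩,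
  ⟨16, 21, [(16, 88)], [⟨-8, false, c0, c0, (m d0 d0), a0, [a0]⟩, ⟨4, false, a0, a0, (m c0 c0), (m d0 d0), []⟩]⟩,
  ⟨16, 23, [(16, 85)], [⟨4, true, c0, c0, (m a0 a0), (m b0 b0), []⟩, ⟨-8, false, a0, a0, (m c0 (m b0 b0)), c0, []⟩]⟩,
  ⟨16, 31, [(8, 103), (8, 104)], [⟨4, true, c0, c0, (m a0 b0), (m b0 e0), []⟩, ⟨-8, false, a0, b0, (m c0 (m b0 e0)), c0, []⟩]⟩,
  ⟨16, 32, [(16, 87)], [⟨-8, false, c0, c0, (m b0 e0), a0, [a0]⟩, ⟨4, false, a0, a0, (m c0 c0), (m b0 e0), []⟩]⟩,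
  ⟨16, 35, [(16, 94)], [⟨4, true, c0, c0, (m a0 a0), (m d0 e0), []⟩, ⟨-8, false, a0, a0, (m c0 (m d0 e0)), c0, []⟩]⟩,
  ⟨16, 42, [(8, 105), (8, 106)], [⟨4, true, c0, c0, (m a0 b0), (m d0 e0), []⟩, ⟨-8, false, a0, b0, (m c0 (m d0 e0)), c0, []⟩]⟩,
  ⟨16, 44, [(8, 110), (8, 111)], [⟨4, true, c0, c0, (m b0 d0), (m d0 e0), []⟩, ⟨-8, false, b0, d0, (m c0 (m d0 e0)), c0, []⟩]⟩,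
  ⟨16, 45, [(8, 97), (8, 98)], [⟨4, true, c0, c0, (m a0 d0), (m b0 e0), []⟩, ⟨-8, false, a0, d0, (m c0 (m b0 e0)), c0, []⟩]⟩,
  ⟨16, 47, [(16, 109)], [⟨4, true, c0, c0, (m b0 b0), (m d0 e0), []⟩, ⟨-8, false, b0, b0, (m c0 (m d0 e0)), c0, []⟩]⟩,
  ⟨16, 48, [(8, 99), (8, 100)], [⟨4, true, c0, c0, (m a0 d0), (m d0 e0), []⟩, ⟨-8, false, a0, d0, (m c0 (m d0 e0)), c0, []⟩]⟩,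
  ⟨16, 52, [(16, 108)], [⟨-8, false, c0, c0, (m e0 e0), b0, [b0]⟩, ⟨4, false, b0, b0, (m c0 c0), (m e0 e0), []⟩]⟩,
  ⟨16, 53, [(8, 92), (8, 93)], [⟨4, true, c0, c0, (m a0 b0), (m e0 e0), []⟩, ⟨-8, false, a0, b0, (m c0 (m e0 e0)), c0, []⟩]⟩]

/-- products -/
def rows4 : List Row := [
  ⟨16, 54, [(16, 89)], [⟨-8, false, c0, c0, (m e0 e0), a0, [a0]⟩, ⟨4, false, a0, a0, (m c0 c0), (m e0 e0), []⟩]⟩,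
  ⟨16, 59, [(8, 112), (8, 113)], [⟨4, true, c0, c0, (m b0 d0), (m e0 e0), []⟩, ⟨-8, false, b0, d0, (m c0 (m e0 e0)), c0, []⟩]⟩,
  ⟨16, 60, [(8, 101), (8, 102)], [⟨4, true, c0, c0, (m a0 d0), (m e0 e0), []⟩, ⟨-8, false, a0, d0, (m c0 (m e0 e0)), c0, []⟩]⟩,
  ⟨18, 22, [(4, 23)], []⟩,
  ⟨18, 24, [(4, 21)], []⟩,
  ⟨18, 28, [(4, 8)], []⟩,
  ⟨18, 46, [(4, 32)], []⟩,
  ⟨18, 55, [(4, 54)], []⟩,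
  ⟨18, 61, [(4, 4)], []⟩,
  ⟨18, 62, [(4, 35)], []⟩,
  ⟨20, 20, [(-2, 23)], [⟨2, true, a0, a0, b0, b0, []⟩]⟩,
  ⟨20, 24, [(4, 19)], []⟩,
  ⟨20, 27, [(-2, 8)], [⟨2, true, a0, a0, b0, d0, []⟩]⟩,
  ⟨20, 28, [(4, 6)], []⟩,
  ⟨20, 46, [(4, 31)], []⟩,
  ⟨20, 49, [(-2, 32)], [⟨2, true, a0, a0, b0, e0, []⟩]⟩,
  ⟨20, 55, [(4, 53)], []⟩,
  ⟨20, 61, [(4, 26)], []⟩,
  ⟨20, 62, [(4, 42)], []⟩,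
  ⟨22, 24, [(4, 17)], []⟩,
  ⟨22, 27, [(-8, 6)], [⟨4, true, a0, b0, b0, d0, []⟩]⟩,
  ⟨22, 49, [(-8, 31)], [⟨4, true, a0, b0, b0, e0, []⟩]⟩,
  ⟨22, 55, [(4, 52)], []⟩,
  ⟨22, 61, [(4, 2)], []⟩,
  ⟨22, 62, [(4, 47)], []⟩,
  ⟨24, 46, [(-8, 44)], [⟨4, true, b0, d0, d0, e0, []⟩]⟩,
  ⟨24, 49, [(-8, 48)], [⟨4, true, a0, d0, d0, e0, []⟩]⟩,
  ⟨24, 61, [(4, 25)], []⟩,
  ⟨25, 26, [(-4, 90), (-4, 91)], [⟨4, false, a0, b0, (m c0 (m d0 d0)), c0, []⟩]⟩,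
  ⟨25, 33, [(8, 110), (8, 111)], [⟨4, true, c0, c0, (m b0 d0), (m d0 e0), []⟩, ⟨2, true, c0, c0, (m b0 e0), (m d0 d0), []⟩, ⟨-2, true, b0, d0, d0, e0, [(m c0 c0)]⟩, ⟨-8, false, b0, d0, (m c0 (m d0 e0)), c0, []⟩]⟩]

/-- products -/
def rows5 : List Row := [
  ⟨25, 34, [(8, 99), (8, 100)], [⟨4, true, c0, c0, (m a0 d0), (m d0 e0), []⟩, ⟨2, true, c0, c0, (m a0 e0), (m d0 d0), []⟩, ⟨-2, true, a0, d0, d0, e0, [(m c0 c0)]⟩, ⟨-8, false, a0, d0, (m c0 (m d0 e0)), c0, []⟩]⟩,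
  ⟨26, 26, [(4, 85)], [⟨2, true, c0, c0, (m a0 b0), (m a0 b0), []⟩, ⟨-1, true, a0, a0, b0, b0, [(m c0 c0)]⟩, ⟨1, true, c0, c0, (m a0 a0), (m b0 b0), []⟩, ⟨-2, false, a0, a0, (m c0 (m b0 b0)), c0, []⟩]⟩,
  ⟨26, 56, [(-4, 92), (-4, 93)], [⟨4, false, a0, b0, (m c0 (m e0 e0)), c0, []⟩]⟩,
  ⟨27, 27, [(-2, 21)], [⟨2, true, a0, a0, d0, d0, []⟩]⟩,
  ⟨27, 28, [(-2, 19)], [⟨2, true, a0, b0, d0, d0, []⟩]⟩,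
  ⟨27, 46, [(4, 45)], []⟩,
  ⟨27, 49, [(-2, 35)], [⟨2, true, a0, a0, d0, e0, []⟩]⟩,
  ⟨27, 55, [(4, 60)], []⟩,
  ⟨27, 61, [(4, 11)], []⟩,
  ⟨27, 62, [(4, 48)], []⟩,
  ⟨28, 28, [(-2, 17)], [⟨2, true, b0, b0, d0, d0, []⟩]⟩,
  ⟨28, 46, [(-2, 47)], [⟨2, true, b0, b0, d0, e0, []⟩]⟩,
  ⟨28, 49, [(-4, 42), (-4, 45)], [⟨4, true, a0, b0, d0, e0, []⟩]⟩,
  ⟨28, 55, [(4, 59)], []⟩,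
  ⟨28, 61, [(4, 15)], []⟩,
  ⟨28, 62, [(4, 44)], []⟩,
  ⟨33, 33, [(4, 108)], [⟨-2, false, c0, c0, (m e0 e0), b0, [b0]⟩, ⟨1, false, b0, b0, (m c0 c0), (m e0 e0), []⟩, ⟨-1, true, b0, b0, e0, e0, [(m c0 c0)]⟩, ⟨2, true, c0, c0, (m b0 e0), (m b0 e0), []⟩]⟩,
  ⟨33, 34, [(2, 92), (2, 93)], [⟨-1, true, a0, b0, e0, e0, [(m c0 c0)]⟩, ⟨2, true, c0, c0, (m a0 e0), (m b0 e0), []⟩, ⟨1, true, c0, c0, (m a0 b0), (m e0 e0), []⟩, ⟨-2, false, a0, b0, (m c0 (m e0 e0)), c0, []⟩]⟩,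
  ⟨33, 37, [(2, 113), (2, 112)], [⟨2, true, c0, c0, (m b0 e0), (m d0 e0), []⟩, ⟨-1, true, b0, d0, e0, e0, [(m c0 c0)]⟩, ⟨1, false, b0, d0, (m c0 c0), (m e0 e0), []⟩, ⟨-1, false, c0, c0, (m e0 e0), b0, [d0]⟩, ⟨-1, false, c0, c0, (m e0 e0), d0, [b0]⟩]⟩,
  ⟨34, 34, [(4, 89)], [⟨-2, false, c0, c0, (m e0 e0), a0, [a0]⟩, ⟨1, false, a0, a0, (m c0 c0), (m e0 e0), []⟩, ⟨-1, true, a0, a0, e0, e0, [(m c0 c0)]⟩, ⟨2, true, c0, c0, (m a0 e0), (m a0 e0), []⟩]⟩,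
  ⟨34, 37, [(2, 102), (2, 101)], [⟨2, true, c0, c0, (m a0 e0), (m d0 e0), []⟩, ⟨-1, true, a0, d0, e0, e0, [(m c0 c0)]⟩, ⟨1, false, a0, d0, (m c0 c0), (m e0 e0), []⟩, ⟨-1, false, c0, c0, (m e0 e0), a0, [d0]⟩, ⟨-1, false, c0, c0, (m e0 e0), d0, [a0]⟩]⟩,
  ⟨46, 46, [(-2, 52)], [⟨2, true, b0, b0, e0, e0, []⟩]⟩,
  ⟨46, 49, [(-2, 53)], [⟨2, true, a0, b0, e0, e0, []⟩]⟩,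
  ⟨46, 61, [(4, 33)], []⟩,
  ⟨46, 62, [(-2, 59)], [⟨2, true, b0, d0, e0, e0, []⟩]⟩,
  ⟨49, 49, [(-2, 54)], [⟨2, true, a0, a0, e0, e0, []⟩]⟩,
  ⟨49, 61, [(4, 34)], []⟩,
  ⟨49, 62, [(-2, 60)], [⟨2, true, a0, d0, e0, e0, []⟩]⟩,
  ⟨55, 61, [(4, 56)], []⟩,
  ⟨61, 61, [(4, 16)], []⟩]

/-- products -/
def rows6 : List Row := [
  ⟨61, 62, [(4, 37)], []⟩]

/-- products -/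
def rows : List Row := rows0 ++ (rows1 ++ (rows2 ++ (rows3 ++ (rows4 ++ (rows5 ++ (rows6))))))

/-- instances -/
def its0 : List FIt := [
  ⟨-4, true, 0, 0, 1, 2, 3⟩,
  ⟨-4, true, 0, 0, 1, 4, 5⟩,
  ⟨-4, true, 0, 0, 1, 6, 7⟩,
  ⟨2, true, 0, 0, 1, 8, 9⟩,
  ⟨-8, true, 0, 0, 10, 11, 12⟩,
  ⟨-16, true, 0, 0, 10, 11, 13⟩,
  ⟨-16, true, 0, 0, 14, 15, 12⟩,
  ⟨-8, true, 0, 0, 14, 15, 13⟩,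
  ⟨3, true, 0, 0, 16, 17, 18⟩,
  ⟨6, true, 0, 0, 16, 19, 20⟩,
  ⟨3, true, 0, 0, 16, 21, 22⟩,
  ⟨6, true, 0, 0, 16, 23, 24⟩,
  ⟨-1, true, 0, 0, 25, 2, 18⟩,
  ⟨-1, true, 0, 0, 25, 4, 22⟩,
  ⟨-32, true, 0, 0, 26, 15, 27⟩,
  ⟨-32, true, 0, 0, 26, 11, 28⟩,
  ⟨4, true, 0, 1, 1, 2, 29⟩,
  ⟨4, true, 0, 1, 1, 4, 30⟩,
  ⟨4, true, 0, 1, 1, 31, 7⟩,
  ⟨-2, true, 0, 1, 1, 32, 9⟩,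
  ⟨-32, true, 0, 1, 10, 33, 3⟩,
  ⟨32, true, 0, 1, 10, 15, 29⟩,
  ⟨-32, true, 0, 1, 14, 34, 5⟩,
  ⟨32, true, 0, 1, 14, 11, 30⟩,
  ⟨-8, true, 0, 10, 10, 35, 36⟩,
  ⟨32, true, 0, 10, 14, 37, 12⟩,
  ⟨32, true, 0, 10, 14, 37, 13⟩,
  ⟨16, true, 0, 10, 14, 33, 38⟩,
  ⟨16, true, 0, 10, 14, 15, 39⟩,
  ⟨16, true, 0, 10, 14, 34, 40⟩,
  ⟨16, true, 0, 10, 14, 11, 41⟩,
  ⟨-24, true, 0, 10, 14, 42, 36⟩,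
  ⟨12, true, 0, 10, 14, 19, 43⟩,
  ⟨4, true, 0, 10, 16, 44, 18⟩,
  ⟨-16, true, 0, 10, 16, 45, 27⟩,
  ⟨16, true, 0, 10, 37, 11, 20⟩,
  ⟨-8, true, 0, 10, 25, 4, 46⟩,
  ⟨32, true, 0, 10, 33, 11, 27⟩,
  ⟨8, true, 0, 10, 15, 37, 18⟩,
  ⟨-16, true, 0, 10, 34, 11, 28⟩,
  ⟨32, true, 0, 10, 11, 37, 20⟩,
  ⟨-32, true, 0, 10, 11, 11, 46⟩,
  ⟨32, true, 0, 10, 26, 34, 24⟩,
  ⟨28, true, 0, 10, 4, 33, 24⟩,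
  ⟨-8, true, 0, 14, 14, 47, 36⟩,
  ⟨4, true, 0, 14, 16, 48, 22⟩,
  ⟨16, true, 0, 14, 16, 42, 28⟩,
  ⟨16, true, 0, 14, 16, 45, 28⟩,
  ⟨16, true, 0, 14, 37, 15, 20⟩,
  ⟨-8, true, 0, 14, 25, 2, 49⟩,
  ⟨-16, true, 0, 14, 33, 15, 27⟩,
  ⟨32, true, 0, 14, 15, 37, 20⟩,
  ⟨-32, true, 0, 14, 15, 15, 49⟩,
  ⟨28, true, 0, 14, 2, 34, 24⟩,
  ⟨32, true, 0, 14, 34, 15, 28⟩,
  ⟨8, true, 0, 14, 11, 37, 22⟩,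
  ⟨32, true, 0, 14, 26, 33, 24⟩,
  ⟨4, true, 0, 16, 44, 10, 18⟩,
  ⟨-4, true, 0, 16, 47, 14, 27⟩,
  ⟨2, true, 0, 16, 17, 14, 49⟩]

/-- instances -/
def its1 : List FIt := [
  ⟨4, true, 0, 16, 48, 14, 22⟩,
  ⟨8, true, 0, 16, 31, 1, 27⟩,
  ⟨8, true, 0, 16, 6, 1, 49⟩,
  ⟨-4, true, 0, 16, 35, 10, 28⟩,
  ⟨2, true, 0, 16, 21, 10, 46⟩,
  ⟨-4, true, 0, 16, 32, 1, 28⟩,
  ⟨-4, true, 0, 16, 8, 1, 46⟩,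
  ⟨6, true, 0, 16, 23, 0, 24⟩,
  ⟨8, true, 0, 37, 15, 10, 18⟩,
  ⟨32, true, 0, 37, 15, 14, 20⟩,
  ⟨32, true, 0, 37, 11, 10, 20⟩,
  ⟨8, true, 0, 37, 11, 14, 22⟩,
  ⟨-8, true, 0, 25, 2, 14, 49⟩,
  ⟨8, true, 0, 25, 26, 0, 20⟩,
  ⟨-8, true, 0, 25, 4, 10, 46⟩,
  ⟨16, true, 0, 33, 15, 14, 27⟩,
  ⟨-16, true, 0, 33, 4, 1, 28⟩,
  ⟨-24, true, 0, 15, 15, 14, 49⟩,
  ⟨-16, true, 0, 2, 34, 1, 27⟩,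
  ⟨8, true, 0, 2, 4, 0, 24⟩,
  ⟨16, true, 0, 34, 11, 10, 28⟩,
  ⟨-24, true, 0, 11, 11, 10, 46⟩,
  ⟨12, true, 0, 26, 26, 0, 24⟩,
  ⟨8, true, 1, 1, 10, 34, 50⟩,
  ⟨16, true, 1, 1, 10, 34, 51⟩,
  ⟨16, true, 1, 1, 14, 33, 50⟩,
  ⟨8, true, 1, 1, 14, 33, 51⟩,
  ⟨-3, true, 1, 1, 16, 52, 18⟩,
  ⟨-6, true, 1, 1, 16, 53, 20⟩,
  ⟨-3, true, 1, 1, 16, 54, 22⟩,
  ⟨-6, true, 1, 1, 16, 23, 55⟩,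
  ⟨1, true, 1, 1, 56, 2, 18⟩,
  ⟨1, true, 1, 1, 56, 4, 22⟩,
  ⟨32, true, 1, 1, 26, 33, 49⟩,
  ⟨32, true, 1, 1, 26, 34, 46⟩,
  ⟨8, true, 1, 10, 10, 35, 43⟩,
  ⟨-32, true, 1, 10, 14, 37, 50⟩,
  ⟨-32, true, 1, 10, 14, 37, 51⟩,
  ⟨-16, true, 1, 10, 14, 33, 39⟩,
  ⟨-16, true, 1, 10, 14, 15, 57⟩,
  ⟨-16, true, 1, 10, 14, 34, 41⟩,
  ⟨-16, true, 1, 10, 14, 11, 58⟩,
  ⟨-12, true, 1, 10, 14, 53, 36⟩,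
  ⟨24, true, 1, 10, 14, 42, 43⟩,
  ⟨2, true, 1, 10, 16, 59, 18⟩,
  ⟨-16, true, 1, 10, 16, 42, 49⟩,
  ⟨-16, true, 1, 10, 16, 45, 49⟩,
  ⟨8, true, 1, 10, 56, 4, 28⟩,
  ⟨-16, true, 1, 10, 37, 34, 20⟩,
  ⟨-8, true, 1, 10, 33, 37, 18⟩,
  ⟨-32, true, 1, 10, 15, 34, 49⟩,
  ⟨-32, true, 1, 10, 34, 37, 20⟩,
  ⟨32, true, 1, 10, 34, 34, 28⟩,
  ⟨16, true, 1, 10, 11, 34, 46⟩,
  ⟨-32, true, 1, 10, 26, 11, 55⟩,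
  ⟨-28, true, 1, 10, 4, 15, 55⟩,
  ⟨8, true, 1, 14, 14, 47, 43⟩,
  ⟨2, true, 1, 14, 16, 60, 22⟩,
  ⟨16, true, 1, 14, 16, 45, 46⟩,
  ⟨8, true, 1, 14, 56, 2, 27⟩]

/-- instances -/
def its2 : List FIt := [
  ⟨-16, true, 1, 14, 37, 33, 20⟩,
  ⟨-32, true, 1, 14, 33, 37, 20⟩,
  ⟨32, true, 1, 14, 33, 33, 27⟩,
  ⟨16, true, 1, 14, 15, 33, 49⟩,
  ⟨-28, true, 1, 14, 2, 11, 55⟩,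
  ⟨-8, true, 1, 14, 34, 37, 22⟩,
  ⟨-32, true, 1, 14, 11, 33, 46⟩,
  ⟨-32, true, 1, 14, 26, 15, 55⟩,
  ⟨2, true, 1, 16, 59, 10, 18⟩,
  ⟨-2, true, 1, 16, 52, 14, 27⟩,
  ⟨4, true, 1, 16, 47, 14, 49⟩,
  ⟨2, true, 1, 16, 60, 14, 22⟩,
  ⟨-8, true, 1, 16, 31, 0, 27⟩,
  ⟨-8, true, 1, 16, 6, 0, 49⟩,
  ⟨-2, true, 1, 16, 54, 10, 28⟩,
  ⟨4, true, 1, 16, 35, 10, 46⟩,
  ⟨4, true, 1, 16, 32, 0, 28⟩,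
  ⟨4, true, 1, 16, 8, 0, 46⟩,
  ⟨-6, true, 1, 16, 23, 1, 55⟩,
  ⟨8, true, 1, 56, 2, 14, 27⟩,
  ⟨-8, true, 1, 56, 26, 1, 20⟩,
  ⟨8, true, 1, 56, 4, 10, 28⟩,
  ⟨-8, true, 1, 37, 33, 10, 18⟩,
  ⟨-32, true, 1, 37, 33, 14, 20⟩,
  ⟨-32, true, 1, 37, 34, 10, 20⟩,
  ⟨-8, true, 1, 37, 34, 14, 22⟩,
  ⟨24, true, 1, 33, 33, 14, 27⟩,
  ⟨-16, true, 1, 33, 15, 14, 49⟩,
  ⟨16, true, 1, 15, 4, 0, 46⟩,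
  ⟨16, true, 1, 2, 11, 0, 49⟩,
  ⟨-8, true, 1, 2, 4, 1, 55⟩,
  ⟨24, true, 1, 34, 34, 10, 28⟩,
  ⟨-16, true, 1, 34, 11, 10, 46⟩,
  ⟨-12, true, 1, 26, 26, 1, 55⟩,
  ⟨-28, false, 61, 61, 46, 44, 18⟩,
  ⟨16, false, 61, 61, 46, 45, 27⟩,
  ⟨-14, false, 61, 61, 28, 59, 18⟩,
  ⟨16, false, 61, 61, 28, 42, 49⟩,
  ⟨16, false, 61, 61, 28, 45, 49⟩,
  ⟨-28, false, 61, 61, 49, 48, 22⟩,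
  ⟨-16, false, 61, 61, 49, 42, 28⟩,
  ⟨-16, false, 61, 61, 49, 45, 28⟩,
  ⟨-14, false, 61, 61, 27, 60, 22⟩,
  ⟨-16, false, 61, 61, 27, 45, 46⟩,
  ⟨-6, false, 61, 61, 20, 53, 24⟩,
  ⟨6, false, 61, 61, 20, 19, 55⟩,
  ⟨-16, false, 61, 55, 28, 10, 3⟩,
  ⟨-28, false, 61, 55, 28, 15, 18⟩,
  ⟨-28, false, 61, 55, 22, 11, 27⟩,
  ⟨-16, false, 61, 55, 27, 14, 5⟩,
  ⟨-28, false, 61, 55, 27, 11, 22⟩,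
  ⟨24, false, 61, 55, 20, 1, 12⟩,
  ⟨24, false, 61, 55, 20, 1, 13⟩,
  ⟨8, false, 61, 55, 20, 10, 38⟩,
  ⟨8, false, 61, 55, 20, 14, 40⟩,
  ⟨-12, false, 61, 55, 20, 26, 24⟩,
  ⟨-28, false, 61, 55, 18, 15, 28⟩,
  ⟨-32, false, 61, 62, 46, 10, 3⟩,
  ⟨32, false, 61, 62, 28, 10, 29⟩,
  ⟨-8, false, 61, 62, 22, 0, 3⟩]

/-- instances -/
def its3 : List FIt := [
  ⟨8, false, 61, 62, 22, 1, 29⟩,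
  ⟨-32, false, 61, 62, 49, 14, 5⟩,
  ⟨32, false, 61, 62, 27, 14, 30⟩,
  ⟨-8, false, 61, 62, 18, 0, 5⟩,
  ⟨8, false, 61, 62, 18, 1, 30⟩,
  ⟨16, false, 61, 24, 46, 10, 29⟩,
  ⟨28, false, 61, 24, 46, 33, 18⟩,
  ⟨28, false, 61, 24, 22, 34, 49⟩,
  ⟨16, false, 61, 24, 49, 14, 30⟩,
  ⟨28, false, 61, 24, 49, 34, 22⟩,
  ⟨-24, false, 61, 24, 20, 0, 50⟩,
  ⟨-24, false, 61, 24, 20, 0, 51⟩,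
  ⟨-8, false, 61, 24, 20, 10, 57⟩,
  ⟨-8, false, 61, 24, 20, 14, 58⟩,
  ⟨12, false, 61, 24, 20, 26, 55⟩,
  ⟨28, false, 61, 24, 18, 33, 46⟩,
  ⟨-56, false, 61, 46, 46, 11, 27⟩,
  ⟨-16, false, 61, 46, 28, 0, 3⟩,
  ⟨16, false, 61, 46, 28, 1, 29⟩,
  ⟨48, false, 61, 46, 49, 1, 12⟩,
  ⟨48, false, 61, 46, 49, 1, 13⟩,
  ⟨16, false, 61, 46, 49, 10, 38⟩,
  ⟨16, false, 61, 46, 49, 14, 40⟩,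
  ⟨32, false, 61, 46, 27, 33, 27⟩,
  ⟨-32, false, 61, 46, 27, 11, 46⟩,
  ⟨56, false, 61, 28, 28, 34, 49⟩,
  ⟨-32, false, 61, 28, 49, 15, 49⟩,
  ⟨32, false, 61, 28, 49, 34, 28⟩,
  ⟨-48, false, 61, 28, 27, 0, 50⟩,
  ⟨-48, false, 61, 28, 27, 0, 51⟩,
  ⟨-16, false, 61, 28, 27, 10, 57⟩,
  ⟨-16, false, 61, 28, 27, 14, 58⟩,
  ⟨-4, false, 61, 22, 18, 0, 63⟩,
  ⟨-2, false, 61, 22, 18, 1, 64⟩,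
  ⟨-1, false, 61, 22, 18, 56, 24⟩,
  ⟨1, false, 61, 22, 18, 25, 55⟩,
  ⟨-56, false, 61, 49, 49, 15, 28⟩,
  ⟨-16, false, 61, 49, 27, 0, 5⟩,
  ⟨16, false, 61, 49, 27, 1, 30⟩,
  ⟨56, false, 61, 27, 27, 33, 46⟩,
  ⟨-8, false, 61, 20, 20, 0, 63⟩,
  ⟨-4, false, 61, 20, 20, 1, 64⟩,
  ⟨-2, false, 61, 20, 20, 56, 24⟩,
  ⟨2, false, 61, 20, 20, 25, 55⟩,
  ⟨8, true, 10, 10, 14, 34, 63⟩,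
  ⟨4, true, 10, 10, 14, 11, 64⟩,
  ⟨-12, true, 10, 10, 16, 60, 27⟩,
  ⟨-24, true, 10, 10, 16, 48, 49⟩,
  ⟨-3, true, 10, 10, 16, 54, 24⟩,
  ⟨3, true, 10, 10, 16, 21, 55⟩,
  ⟨8, true, 10, 10, 37, 34, 27⟩,
  ⟨-8, true, 10, 10, 37, 11, 49⟩,
  ⟨8, true, 10, 14, 14, 33, 63⟩,
  ⟨4, true, 10, 14, 14, 15, 64⟩,
  ⟨8, true, 10, 14, 56, 25, 20⟩,
  ⟨8, true, 10, 14, 56, 26, 24⟩,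
  ⟨-16, true, 10, 14, 37, 33, 27⟩,
  ⟨16, true, 10, 14, 37, 15, 49⟩,
  ⟨-16, true, 10, 14, 37, 34, 28⟩,
  ⟨16, true, 10, 14, 37, 11, 46⟩]

/-- instances -/
def its4 : List FIt := [
  ⟨-8, true, 10, 14, 25, 56, 20⟩,
  ⟨-8, true, 10, 14, 25, 26, 55⟩,
  ⟨-32, true, 10, 14, 33, 37, 27⟩,
  ⟨32, true, 10, 14, 15, 37, 49⟩,
  ⟨-32, true, 10, 14, 34, 37, 28⟩,
  ⟨32, true, 10, 14, 11, 37, 46⟩,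
  ⟨4, true, 10, 16, 53, 1, 27⟩,
  ⟨-8, true, 10, 16, 42, 0, 27⟩,
  ⟨-8, true, 10, 16, 45, 0, 27⟩,
  ⟨-8, true, 10, 16, 45, 1, 49⟩,
  ⟨-4, true, 10, 16, 19, 0, 49⟩,
  ⟨6, true, 10, 16, 32, 0, 24⟩,
  ⟨-6, true, 10, 16, 8, 1, 55⟩,
  ⟨16, true, 10, 56, 11, 1, 20⟩,
  ⟨32, true, 10, 37, 34, 10, 27⟩,
  ⟨-32, true, 10, 37, 11, 10, 49⟩,
  ⟨-16, true, 10, 25, 34, 0, 20⟩,
  ⟨-16, true, 10, 33, 34, 1, 27⟩,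
  ⟨-40, true, 10, 33, 34, 14, 24⟩,
  ⟨-16, true, 10, 33, 11, 1, 49⟩,
  ⟨12, true, 10, 33, 4, 0, 24⟩,
  ⟨16, true, 10, 15, 34, 0, 27⟩,
  ⟨16, true, 10, 15, 11, 0, 49⟩,
  ⟨40, true, 10, 15, 11, 14, 55⟩,
  ⟨-12, true, 10, 15, 4, 1, 55⟩,
  ⟨-24, true, 10, 34, 34, 10, 24⟩,
  ⟨24, true, 10, 11, 11, 10, 55⟩,
  ⟨-12, true, 14, 14, 16, 59, 28⟩,
  ⟨-24, true, 14, 14, 16, 44, 46⟩,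
  ⟨-3, true, 14, 14, 16, 52, 24⟩,
  ⟨3, true, 14, 14, 16, 17, 55⟩,
  ⟨8, true, 14, 14, 37, 33, 28⟩,
  ⟨-8, true, 14, 14, 37, 15, 46⟩,
  ⟨4, true, 14, 16, 53, 1, 28⟩,
  ⟨8, true, 14, 16, 42, 1, 46⟩,
  ⟨8, true, 14, 16, 45, 0, 28⟩,
  ⟨8, true, 14, 16, 45, 1, 46⟩,
  ⟨-4, true, 14, 16, 19, 0, 46⟩,
  ⟨-12, true, 14, 16, 31, 0, 24⟩,
  ⟨12, true, 14, 16, 6, 1, 55⟩,
  ⟨16, true, 14, 56, 15, 1, 20⟩,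
  ⟨32, true, 14, 37, 33, 14, 28⟩,
  ⟨-32, true, 14, 37, 15, 14, 46⟩,
  ⟨-16, true, 14, 25, 33, 0, 20⟩,
  ⟨-24, true, 14, 33, 33, 14, 24⟩,
  ⟨-16, true, 14, 33, 34, 1, 28⟩,
  ⟨-40, true, 14, 33, 34, 10, 24⟩,
  ⟨16, true, 14, 33, 11, 0, 28⟩,
  ⟨24, true, 14, 15, 15, 14, 55⟩,
  ⟨-16, true, 14, 15, 34, 1, 46⟩,
  ⟨16, true, 14, 15, 11, 0, 46⟩,
  ⟨40, true, 14, 15, 11, 10, 55⟩,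
  ⟨12, true, 14, 2, 34, 0, 24⟩,
  ⟨-12, true, 14, 2, 11, 1, 55⟩,
  ⟨12, false, 55, 28, 28, 14, 7⟩,
  ⟨8, false, 55, 28, 20, 1, 7⟩,
  ⟨6, false, 55, 22, 18, 1, 36⟩,
  ⟨12, false, 55, 27, 27, 10, 9⟩,
  ⟨8, false, 55, 27, 20, 1, 9⟩,
  ⟨16, false, 62, 46, 20, 1, 7⟩]

/-- instances -/
def its5 : List FIt := [
  ⟨4, false, 62, 46, 18, 1, 9⟩,
  ⟨-16, false, 62, 28, 20, 0, 7⟩,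
  ⟨-4, false, 62, 28, 18, 0, 9⟩,
  ⟨4, false, 62, 22, 49, 1, 7⟩,
  ⟨-4, false, 62, 22, 27, 0, 7⟩,
  ⟨-8, false, 62, 22, 18, 0, 36⟩,
  ⟨8, false, 62, 22, 18, 1, 43⟩,
  ⟨16, false, 62, 49, 20, 1, 9⟩,
  ⟨-16, false, 62, 27, 20, 0, 9⟩,
  ⟨-16, false, 62, 20, 20, 0, 36⟩,
  ⟨16, false, 62, 20, 20, 1, 43⟩,
  ⟨-12, false, 24, 46, 46, 14, 7⟩,
  ⟨-8, false, 24, 46, 20, 0, 7⟩,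
  ⟨-6, false, 24, 22, 18, 0, 43⟩,
  ⟨-12, false, 24, 49, 49, 10, 9⟩,
  ⟨-8, false, 24, 49, 20, 0, 9⟩,
  ⟨4, false, 46, 46, 27, 14, 36⟩,
  ⟨8, false, 46, 28, 49, 1, 7⟩,
  ⟨24, false, 46, 28, 49, 14, 36⟩,
  ⟨-8, false, 46, 28, 27, 0, 7⟩,
  ⟨-24, false, 46, 28, 27, 14, 43⟩,
  ⟨8, false, 46, 49, 27, 1, 9⟩,
  ⟨24, false, 46, 49, 27, 10, 36⟩,
  ⟨-4, false, 46, 27, 27, 10, 43⟩,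
  ⟨-8, false, 46, 27, 20, 0, 36⟩,
  ⟨8, false, 46, 27, 20, 1, 43⟩,
  ⟨-4, false, 28, 28, 49, 14, 43⟩,
  ⟨4, false, 28, 49, 49, 10, 36⟩,
  ⟨-8, false, 28, 49, 27, 0, 9⟩,
  ⟨-24, false, 28, 49, 27, 10, 43⟩,
  ⟨-8, false, 28, 49, 20, 0, 36⟩,
  ⟨8, false, 28, 49, 20, 1, 43⟩]

/-- instances -/
def its : List FIt := its0 ++ (its1 ++ (its2 ++ (its3 ++ (its4 ++ (its5)))))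

theorem rows_ok : rows.all (chkRow mono 4) = true := by decide +kernel

theorem its_ok : chkF rows (-48) 23 16 24 55 its = true := by decide +kernel

end Pool.Agent.H.MP_e16c79_al.F4
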