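import Pool.Agent.H.MP_e16c79_al.F4.Dat

/-!
# MP_e16c79_al, index four: the identity of degree ten
-/

set_option autoImplicit false

namespace Pool.Agent.H.MP_e16c79_al.F4

open Pool.Agent.H.MP_e16c79_al.N4

variable {A M : Type*} [NonUnitalNonAssocCommRing A] [AddCommGroup M]

/-- an additive group without `2`- and `3`-torsion has no `48`-torsion -/
theorem tf48 (hM : TF M) {m : M} (h : (-48 : ℤ) • m = 0) : m = 0 := by
  have h1 : (2 : ℤ) • (2 : ℤ) • (2 : ℤ) • (2 : ℤ) • (3 : ℤ) • m = 0 := by
    rw [smul_smul, smul_smul, smul_smul, smul_smul]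
    have h2 : (2 * 2 * 2 * 2 * 3 : ℤ) • m = - ((-48 : ℤ) • m) := by
      rw [← neg_smul]
      norm_num
    rw [h2, h, neg_zero]
  exact hM.three _ (hM.two _ (hM.two _ (hM.two _ (hM.two _ h1))))

/-- The identity of degree ten. -/
theorem main [IsCommJordan A] (hT : TF A) (hM : TF M) (h4 : ∀ a : A, a * (a * (a * a)) = 0)
    (F : Tok A M) (a b c d e : A) :
    F.f ((a * a) * (b * b)) (c * c) (d * d) (e * e) = 0 := by
  let x : ℕ → A := fun n => match n with
    | 0 => a
    | 1 => b
    | 2 => c
    | 3 => d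
    | _ => e
  have hr : ∀ r ∈ rows, (4 : ℤ) • ((mono r.i).ev x * (mono r.j).ev x) =
      evC (fun k => (mono k).ev x) r.c := by
    intro r hr
    have h1 := rows_ok
    rw [List.all_eq_true] at h1
    exact row_sound x hT h4 mono 4 r (h1 r hr)
  have h2 := F.sound (fun k => (mono k).ev x) hM 4 rows
    (fun i j c' h => look_sound x mono 4 rows hr i j c' h) (-48) 23 16 24 55 its its_ok
  exact tf48 hM h2

/-- In each pair of arguments only squares have to be tested. -/
theorem polar {N : Type*} [AddCommGroup N] (hN : TF N) (h : A →+ N)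
    (hs : ∀ a, h (a * a) = 0) (a b : A) : h (a * b) = 0 := by
  refine hN.two _ ?_
  have h1 := hs (a + b)
  rw [add_mul, mul_add, mul_add, map_add, map_add, map_add, hs a, hs b, mul_comm b a] at h1
  rw [two_smul]
  simpa using h1

end Pool.Agent.H.MP_e16c79_al.F4
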